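import Pool.Agent.MP_81f5b7_pr.H66.Spec

/-! Bookkeeping of the lazy labelling. -/

set_option linter.unusedSectionVars false

namespace Pool.Agent.MP_81f5b7_pr.H66

open Finset
open scoped Classical

namespace STEP

variable {V : Type} [Fintype V] [DecidableEq V] (τ : V → C3) (a : C3) (m : ℕ)
  (W : Finset (ℕ × Sym2 V))

theorem pick_none {a : C3} {t : St V} (h : pick a t = none) (w : V) (c : C3)
    (hw : t.lab w = some c) : t.s ≤ t.d w := by
  unfold pick at h
  split_ifs at h with h1 h2
  exact not_lt.1 fun k => h2 ⟨(w, c), hw, k⟩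

theorem pick_some {a : C3} {t : St V} {z : V × C3} (h : pick a t = some z) :
    t.lab z.1 = some z.2 ∧ t.d z.1 < t.s ∧ (z.2 = a ∨ ∀ w, t.lab w = some a → t.s ≤ t.d w) := by
  unfold pick at h
  split_ifs at h with h1 h2
  · obtain rfl := Option.some.inj h
    exact ⟨h1.choose_spec.1, h1.choose_spec.2, Or.inl rfl⟩
  · obtain rfl := Option.some.inj h
    exact ⟨h2.choose_spec.1, h2.choose_spec.2, Or.inr fun w hw => not_lt.1 fun k => h1 ⟨w, hw, k⟩⟩

/-- the two kinds of steps -/
theorem step (t : St V) :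
    (rc a t = none ∧ (∀ w c, t.lab w = some c → t.s ≤ t.d w) ∧
      lzN τ a m t W = ⟨min (t.s + 1) m, t.lab, t.d⟩ ∧ ∀ c, lzX τ a t W c = 0) ∨
    ∃ (w : V) (e : C3) (H : Finset V), rc a t = some e ∧ t.lab w = some e ∧ t.d w < t.s ∧
      (e = a ∨ ∀ w, t.lab w = some a → t.s ≤ t.d w) ∧
      (∀ y ∈ H, t.lab y = none ∧ τ y ≠ e ∧ (t.d w, s(w, y)) ∈ W) ∧
      lzN τ a m t W = ⟨t.s, fun y => if y ∈ H then some (-τ y - e) else t.lab y,
        Function.update t.d w (t.d w + 1)⟩ ∧
      ∀ c, lzX τ a t W c = ∑ y, if y ∈ H ∧ τ y = c then 1 else 0 := by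
  cases h : pick a t with
  | none => exact Or.inl ⟨by simp [rc, h], pick_none h, by simp [lzN, h], fun c => by simp [lzX, h]⟩
  | some z =>
    obtain ⟨h1, h2, h3⟩ := pick_some h
    refine Or.inr ⟨z.1, z.2, (tg τ t z.2).filter fun y => (t.d z.1, s(z.1, y)) ∈ W, by simp [rc, h],
      h1, h2, h3, fun y hy => by simpa [tg, and_assoc] using hy, by simp [lzN, h], fun c => ?_⟩
    rw [← card_filter]
    simp only [lzX, h]
    congr 1
    ext y
    simp only [mem_filter, mem_univ, true_and]
    tauto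

/-- the basic invariant -/
def Inv (t : St V) : Prop := t.s ≤ m ∧ (∀ y, t.d y ≤ t.s) ∧ ∀ y, t.lab y = none → t.d y = 0

theorem lz_succ (A : Finset V) (σ : V → C3) (i : ℕ) :
    lz τ a m A σ W (i + 1) = lzN τ a m (lz τ a m A σ W i) W := Function.iterate_succ_apply' _ _ _

theorem inv_step {t : St V} (h : Inv m t) : Inv m (lzN τ a m t W) := by
  obtain ⟨h1, h2, h3⟩ := h
  rcases step τ a m W t with ⟨-, -, e, -⟩ | ⟨w, c, H, -, k1, k2, -, -, e, -⟩ <;> rw [e]
  · exact ⟨min_le_right _ _, fun y => (h2 y).trans (le_min (Nat.le_succ _) h1), h3⟩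
  · refine ⟨h1, fun y => ?_, fun y hy => ?_⟩
    · by_cases k : y = w
      · subst k
        simpa using k2
      · simpa [k] using h2 y
    · have k3 : t.lab y = none := by
        dsimp only at hy
        split_ifs at hy
        exact hy
      have k : y ≠ w := by
        rintro rfl
        simp [k1] at k3
      simpa [k] using h3 y k3

theorem inv_lz (A : Finset V) (σ : V → C3) (i : ℕ) : Inv m (lz τ a m A σ W i) := by
  induction i with
  | zero => exact ⟨Nat.zero_le _, fun _ => le_rfl, fun _ _ => rfl⟩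
  | succ i ih => exact lz_succ τ a m W A σ i ▸ inv_step τ a m W ih

theorem book {t : St V} (h : Inv m t) (c : C3) :
    (lzN τ a m t W).U τ c + lzX τ a t W c = t.U τ c ∧
    (rc a t = none ∨ rc a t = some c → lzX τ a t W c = 0) ∧
    (lzN τ a m t W).N c = t.N c + (if rc a t = some c then 1 else 0) ∧
    (lzN τ a m t W).L c = t.L c + (rc a t).elim 0 (fun c₀ => lzX τ a t W (-c - c₀)) := by
  rcases step τ a m W t with ⟨k, -, e, x⟩ | ⟨w, c₀, H, k, k1, -, -, k2, e, x⟩
  · rw [e, k, x]
    exact ⟨rfl, fun _ => rfl, by simp [St.N], rfl⟩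
  · rw [e, k]
    simp only [x, St.U, St.N, St.L, card_filter, sum_filter, Option.elim_some, ← sum_add_distrib]
    refine ⟨sum_congr rfl fun y _ => ?_, fun k3 => sum_eq_zero fun y _ => if_neg fun k4 => ?_, ?_,
      sum_congr rfl fun y _ => ?_⟩
    · by_cases hy : y ∈ H
      · simp [hy, (k2 y hy).1]
      · simp [hy]
    · rcases k3 with k3 | k3
      · simp at k3
      · exact (k2 y k4.1).2.1 (k4.2.trans (Option.some.inj k3).symm)
    · rw [← Fintype.sum_ite_eq' w fun _ => if some c₀ = some c then 1 else 0, ← sum_add_distrib]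
      refine sum_congr rfl fun y _ => ?_
      by_cases hw : y = w
      · subst hw
        have hy : y ∉ H := fun hy => by simp [(k2 y hy).1] at k1
        simp only [hy, k1, if_false, if_true, Function.update_self]
        split_ifs <;> rfl
      · by_cases hy : y ∈ H
        · simp [hw, (k2 y hy).1, h.2.2 y (k2 y hy).1]
        · simp [hw, hy]
    · by_cases hy : y ∈ H
      · have : -τ y - c₀ = c ↔ τ y = -c - c₀ :=
          (by decide : ∀ u c c₀ : C3, -u - c₀ = c ↔ u = -c - c₀) _ _ _
        simp [hy, (k2 y hy).1, this]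
      · simp [hy]

theorem total {t : St V} (h : Inv m t) : ∑ c, t.N c ≤ Fintype.card V * m := by
  simp only [St.N, sum_filter]
  rw [sum_comm, ← smul_eq_mul, ← card_univ, ← sum_const]
  refine sum_le_sum fun y _ => le_trans ?_ ((h.2.1 y).trans h.1)
  cases t.lab y <;> simp

/-- the invariants for the colour that goes first -/
def Pri (s₀ : ℕ) (A : Finset V) (t : St V) : Prop :=
  (∀ w w', t.lab w = some a → t.lab w' = some a → t.d w + 1 < t.s → t.d w' + 1 < t.s → w = w') ∧
    (t.s ≤ s₀ + 1 → ∀ y, y ∉ A → t.lab y = none)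

theorem pri_step {s₀ : ℕ} {A : Finset V} {t : St V} (hN : NM (rows m W))
    (hE : ∀ B ∈ (rows m W).take (s₀ + 1), ¬B.Nonempty) (h : Inv m t) (p : Pri a s₀ A t) :
    Pri a s₀ A (lzN τ a m t W) := by
  rcases step τ a m W t with ⟨-, k, e, -⟩ | ⟨w, c, H, -, -, k2, k3, k4, e, -⟩ <;> rw [e]
  · refine ⟨fun u _ hu _ k1 _ => ?_, fun k1 => p.2 ((le_min (Nat.le_succ _) h.1).trans k1)⟩
    have := k u a hu
    have := min_le_left (t.s + 1) m
    dsimp only at k1
    omega
  · have hd : ∀ y, t.d y ≤ Function.update t.d w (t.d w + 1) y := fun y => by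
      by_cases k : y = w
      · subst k
        simp
      · simp [k]
    have hm : t.d w < m := k2.trans_le h.1
    refine ⟨fun u u' hu hu' k5 k6 => ?_, fun k1 y hy => ?_⟩
    · dsimp only at hu hu' k5 k6
      have d1 := hd u
      have d2 := hd u'
      rcases k3 with rfl | k3
      · have k7 : ∀ y, (if y ∈ H then some (-τ y - c) else t.lab y) = some c → t.lab y = some c :=
          fun y hy => by
            split_ifs at hy with k
            · exact absurd (Option.some.inj hy) (third_ne (k4 y k).2.1.symm).2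
            · exact hy
        exact p.1 u u' (k7 u hu) (k7 u' hu') (by omega) (by omega)
      · have k7 : ∀ y, (if y ∈ H then some (-τ y - c) else t.lab y) = some a →
            Function.update t.d w (t.d w + 1) y + 1 < t.s → y ∈ H := fun y hy k8 => by
          by_contra k
          rw [if_neg k] at hy
          have := k3 y hy
          have := hd y
          omega
        exact Sym2.congr_right.1 (card_le_one.1 (hN _ (mem_rows.2 ⟨_, hm, rfl⟩))
          _ (mem_filter.2 ⟨mem_univ _, (k4 u (k7 u hu k5)).2.2⟩)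
          _ (mem_filter.2 ⟨mem_univ _, (k4 u' (k7 u' hu' k6)).2.2⟩))
    · have k5 : y ∉ H := fun k => hE (univ.filter fun e => (t.d w, e) ∈ W) (by
        rw [rows, ← List.map_take, List.take_range]
        exact List.mem_map.2 ⟨_, List.mem_range.2 (lt_min (k2.trans_le k1) hm), rfl⟩)
          ⟨_, mem_filter.2 ⟨mem_univ _, (k4 y k).2.2⟩⟩
      exact (if_neg k5).trans (p.2 k1 y hy)

theorem pri_end {s₀ : ℕ} {A : Finset V} {t : St V} {b : C3} (h0 : 0 < s₀) (h : Inv m t)
    (p : Pri a s₀ A t) (hab : t.N a ≤ t.N b) :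
    (t.L a : ℝ) - t.L b ≤ A.card + 1 + Fintype.card V / s₀ := by
  have n0 : (0 : ℝ) ≤ Fintype.card V / s₀ := by positivity
  have n1 : (0 : ℝ) ≤ t.L b := Nat.cast_nonneg _
  have n2 : (0 : ℝ) ≤ A.card := Nat.cast_nonneg _
  by_cases hs : t.s ≤ s₀ + 1
  · have : t.L a ≤ A.card := card_le_card fun y hy => by
      by_contra k
      simp [p.2 hs y k] at hy
    have : (t.L a : ℝ) ≤ A.card := by exact_mod_cast this
    linarith
  · have e1 : t.N b ≤ t.L b * t.s := sum_le_card_nsmul _ _ _ fun y _ => h.2.1 y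
    have e2 : ((univ.filter fun y => t.lab y = some a).filter fun y => t.d y + 1 < t.s).card ≤ 1 :=
      card_le_one.2 fun u hu u' hu' => by
        simp only [mem_filter, mem_univ, true_and] at hu hu'
        exact p.1 u u' hu.1 hu'.1 hu.2 hu'.2
    have e3 : t.L a * t.s ≤ t.N a + t.L a + 1 * t.s := by
      refine le_trans ?_ (Nat.add_le_add_left (Nat.mul_le_mul_right _ e2) _)
      rw [card_filter, sum_mul, St.N, St.L, ← smul_eq_mul, ← sum_const, card_eq_sum_ones,
        ← sum_add_distrib, ← sum_add_distrib]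
      refine sum_le_sum fun y _ => ?_
      split_ifs <;> omega
    have e4 : t.L a ≤ Fintype.card V := card_le_univ _
    have e5 : (t.L a : ℝ) * t.s ≤ t.L b * t.s + Fintype.card V + t.s := by
      exact_mod_cast (by omega : t.L a * t.s ≤ t.L b * t.s + Fintype.card V + t.s)
    have e6 : (s₀ : ℝ) ≤ t.s := by exact_mod_cast (by omega : s₀ ≤ t.s)
    have e7 : (0 : ℝ) < s₀ := by exact_mod_cast h0
    have e8 : (t.L a : ℝ) - t.L b - 1 ≤ Fintype.card V / t.s := by
      rw [le_div_iff₀ (e7.trans_le e6)]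
      linarith
    have e9 : (Fintype.card V : ℝ) / t.s ≤ Fintype.card V / s₀ :=
      div_le_div_of_nonneg_left (Nat.cast_nonneg _) e7 e6
    linarith

end STEP

open STEP in
theorem rowSTEP : SSTEP := by
  intro V _ _ τ a m A σ W t ht i c
  subst ht
  have h := inv_lz τ a m W A σ i
  obtain ⟨h1, h2, h3, h4⟩ := book τ a m W h c
  rw [lz_succ]
  refine ⟨h1, h2, h3, h4, total m h, by simp [lz, St.N], ?_⟩
  simp [lz, St.U]

open STEP in
theorem rowPRI : SPRI := by
  intro V _ _ τ a b m s₀ A σ W i h0 hN hE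
  refine pri_end a m h0 (inv_lz τ a m W A σ i) ?_
  induction i with
  | zero => exact ⟨fun _ _ _ _ k => absurd k (Nat.not_lt_zero _), fun _ y hy => if_neg hy⟩
  | succ i ih => exact lz_succ τ a m W A σ i ▸ pri_step τ a m W hN hE (inv_lz τ a m W A σ i) ih

end Pool.Agent.MP_81f5b7_pr.H66
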